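import Pool.Agent.Helper57.NW.Defs
import Pool.Agent.Helper62.NS.Low

/-!
# NW: block P2, the lower tail of the prime sum
-/

set_option autoImplicit false
open MeasureTheory Set Filter Topology
open scoped ENNReal
open Pool.Agent.Helper57.Zeta Pool.Agent.Helper57.LH Pool.Agent.Helper57.ED
open Pool.Agent.Helper93.UG (zc sp)
open Pool.Agent.Helper69.UG (XX NX)
open Pool.Agent.Helper57.TX (QX DP rs)
open Pool.Agent.Helper57.NW
open Pool.Agent.Helper62.NS (gm gm_conv DP_cont' loc)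

namespace Pool.Agent.Helper62.NW

/-- P2 -/
theorem dp_low_of
    (re_mom : ∃ T₀ : ℝ, ∀ T L : ℝ, T₀ ≤ T → 1 ≤ L → ∀ (Q : Finset ℕ) (r : ℕ → ℝ) (m : ℕ) (x : ℝ),
      (∀ p ∈ Q, p.Prime ∧ (p : ℝ) ≤ L) → L ^ m ≤ T ^ (1 / 16 : ℝ) → (∀ p ∈ Q, r p ^ 2 / p ≤ x) →
      4 * m ^ 2 * x ≤ ∑ p ∈ Q, r p ^ 2 / p → 0 < ∑ p ∈ Q, r p ^ 2 / p →
      IntegrableOn (fun t => (DP Q r t).re ^ (2 * m)) (Icc T (2 * T)) ∧
      T / 2 * (((2 * m).factorial : ℝ) / (2 ^ m * m.factorial)) * ((∑ p ∈ Q, r p ^ 2 / p) / 2) ^ m ≤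
        ∫ t in Icc T (2 * T), (DP Q r t).re ^ (2 * m) ∧
      ∫ t in Icc T (2 * T), (DP Q r t).re ^ (2 * m) ≤
        2 * T * (((2 * m).factorial : ℝ) / (2 ^ m * m.factorial)) * ((∑ p ∈ Q, r p ^ 2 / p) / 2) ^ m)
    {k d : ℝ} (hk : 0 < k) (hk8 : k ≤ 1 / 32) (hd : 0 < d) (n : ℕ)
    (var_w : ∃ C T₀ : ℝ, 1 ≤ C ∧ ∀ T R L : ℝ, T₀ ≤ T → C ≤ L → L ≤ Real.log T → 1 ≤ R → R ≤ L ^ (1 - d) →
      (1 - 7 * k) / Real.log (L / R) ≤ Vw k T R L n ∧ Vw k T R L n ≤ (1 + 6 * k) / Real.log (L / R))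
    (rb_le : ∃ c C T₀ : ℝ, 0 < c ∧ 1 ≤ C ∧
      ∀ T R L : ℝ, T₀ ≤ T → C ≤ L → L ≤ Real.log T → 1 ≤ R → R ≤ L ^ (1 - d) → ∀ p : ℕ, p.Prime →
        rb k T (Jw k L n) (bw k R L n) p ^ 2 / p ≤ C * L ^ (-c)) :
    ∃ C T₀ : ℝ, 1 ≤ C ∧
      ∀ T R L e : ℝ, T₀ ≤ T → C ≤ L → L ≤ Real.log T → 1 ≤ R → R ≤ L ^ (1 - d) → 0 < e → e ≤ 2 →
      ENNReal.ofReal (1 / C * (L / R) ^ (-((1 + 30 * k) * e ^ 2)) * T) ≤
        volume {t : ℝ | T ≤ t ∧ t ≤ 2 * T ∧ e < |Dw k T R L n t|} := by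
  obtain ⟨T0, hmom⟩ := re_mom
  obtain ⟨C1, T1, hC1, hvar⟩ := var_w
  obtain ⟨c3, C3, T3, hc3, hC3, hrk⟩ := rb_le
  obtain ⟨c, K, hc, hloc⟩ := loc hk (by linarith : k ≤ 1)
  -- eventual inequalities in `L`
  have hdk : 0 < d * k := by positivity
  have ev1 : ∀ᶠ L : ℝ in atTop, 32 * (K : ℝ) * Real.log L ≤ L ^ (d * k) := by
    have h1 := (isLittleO_log_rpow_atTop hdk).bound (c := 1 / (32 * K + 1)) (by positivity)
    filter_upwards [h1, eventually_ge_atTop 1] with L h2 h3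
    have h4 : 0 ≤ Real.log L := Real.log_nonneg h3
    have h5 : 0 ≤ L ^ (d * k) := by positivity
    rw [Real.norm_eq_abs, Real.norm_eq_abs, abs_of_nonneg h4, abs_of_nonneg h5, ← div_le_iff₀' (by positivity)] at h2
    have h6 : Real.log L / (1 / (32 * (K : ℝ) + 1)) = (32 * K + 1) * Real.log L := by field_simp
    rw [h6] at h2
    linarith
  have ev2 : ∀ᶠ L : ℝ in atTop, 64 * (K : ℝ) ^ 2 * C3 * Real.log L ^ 3 ≤ L ^ c3 := by
    have h1 := (isLittleO_log_rpow_rpow_atTop (3 : ℝ) hc3).bound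
      (c := 1 / (64 * K ^ 2 * C3 + 1)) (by positivity)
    filter_upwards [h1, eventually_ge_atTop 1] with L h2 h3
    have h4 : 0 ≤ Real.log L := Real.log_nonneg h3
    have h5 : 0 ≤ L ^ c3 := by positivity
    have h5' : 0 ≤ Real.log L ^ (3 : ℝ) := by positivity
    rw [Real.norm_eq_abs, Real.norm_eq_abs, abs_of_nonneg h5', abs_of_nonneg h5, ← div_le_iff₀' (by positivity)] at h2
    have h7 : Real.log L ^ (3 : ℝ) = Real.log L ^ 3 := by
      rw [← Real.rpow_natCast]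
      norm_num
    rw [h7] at h2
    have h6 : Real.log L ^ 3 / (1 / (64 * (K : ℝ) ^ 2 * C3 + 1)) = (64 * K ^ 2 * C3 + 1) * Real.log L ^ 3 := by
      field_simp
    rw [h6] at h2
    have h8 : 0 ≤ Real.log L ^ 3 := by positivity
    have h9 : 64 * (K : ℝ) ^ 2 * C3 * Real.log L ^ 3 ≤ (64 * (K : ℝ) ^ 2 * C3 + 1) * Real.log L ^ 3 :=
      mul_le_mul_of_nonneg_right (by linarith) h8
    exact h9.trans h2
  obtain ⟨C4, hC4⟩ := eventually_atTop.1 (ev1.and ev2)
  refine ⟨max (max (1 / c) (Real.exp (2 / d))) (max C1 (max C3 C4)), max (max T0 T1) (max T3 1), ?_, ?_⟩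
  · exact le_max_of_le_right (le_max_of_le_left hC1)
  intro T R L e hT hL hLT hR hRL he he2
  set CC : ℝ := max (max (1 / c) (Real.exp (2 / d))) (max C1 (max C3 C4)) with hCC
  have hT0 : T0 ≤ T := (le_max_left _ _).trans ((le_max_left _ _).trans hT)
  have hT1 : T1 ≤ T := (le_max_right _ _).trans ((le_max_left _ _).trans hT)
  have hT3 : T3 ≤ T := (le_max_left _ _).trans ((le_max_right _ _).trans hT)
  have hTp1 : 1 ≤ T := (le_max_right _ _).trans ((le_max_right _ _).trans hT)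
  have hTp : 0 < T := by linarith
  have hLc : 1 / c ≤ CC := (le_max_left _ _).trans (le_max_left _ _)
  have hL2 : Real.exp (2 / d) ≤ L := ((le_max_right _ _).trans (le_max_left _ _)).trans hL
  have hLC1 : C1 ≤ L := ((le_max_left _ _).trans (le_max_right _ _)).trans hL
  have hLC3 : C3 ≤ L := ((le_max_left _ _).trans ((le_max_right _ _).trans (le_max_right _ _))).trans hL
  have hLC4 : C4 ≤ L := ((le_max_right _ _).trans ((le_max_right _ _).trans (le_max_right _ _))).trans hL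
  have hL0 : 0 < L := (Real.exp_pos _).trans_le hL2
  have hR0 : 0 < R := by linarith
  have hL1 : 1 ≤ L := (Real.one_le_exp (by positivity)).trans hL2
  have hlogL : 2 / d ≤ Real.log L := (Real.le_log_iff_exp_le hL0).2 hL2
  have hlogL0 : 0 ≤ Real.log L := Real.log_nonneg hL1
  -- the ratio
  obtain ⟨U, hU⟩ : ∃ U : ℝ, U = L / R := ⟨_, rfl⟩
  have hUd : L ^ d ≤ U := by
    rw [hU, le_div_iff₀ hR0]
    have h1 : L ^ d * R ≤ L ^ d * L ^ (1 - d) := mul_le_mul_of_nonneg_left hRL (by positivity)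
    rw [← Real.rpow_add hL0] at h1
    simpa using h1
  have hU0 : 0 < U := by rw [hU]; positivity
  have hUL : U ≤ L := by
    rw [hU]
    exact div_le_self hL0.le hR
  have hlogU1 : d * Real.log L ≤ Real.log U := by
    rw [← Real.log_rpow hL0]
    exact Real.log_le_log (by positivity) hUd
  have hlogU2 : Real.log U ≤ Real.log L := Real.log_le_log hU0 hUL
  have hlog2 : 2 ≤ Real.log U := by
    refine le_trans ?_ hlogU1
    rw [div_le_iff₀ hd] at hlogL
    linarith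
  have hlog0 : 0 < Real.log U := by linarith
  have hUk : L ^ (d * k) ≤ U ^ k := by
    rw [Real.rpow_mul hL0.le]
    exact Real.rpow_le_rpow (by positivity) hUd hk.le
  obtain ⟨h1, h2⟩ := hC4 L hLC4
  have h1U : 32 * (K : ℝ) * Real.log U ≤ R * U ^ k := by
    have h3 : 32 * (K : ℝ) * Real.log U ≤ 32 * (K : ℝ) * Real.log L := mul_le_mul_of_nonneg_left hlogU2 (by positivity)
    have h4 : U ^ k ≤ R * U ^ k := le_mul_of_one_le_left (by positivity) hR
    linarith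
  set r : ℕ → ℝ := rb k T (Jw k L n) (bw k R L n) with hr
  set Q : Finset ℕ := QX (Xr k T R L) with hQd
  set V : ℝ := ∑ p ∈ Q, r p ^ 2 / p with hV
  have hVw : Vw k T R L n = V := rfl
  have hVlow : (1 - 7 * k) / Real.log U ≤ V := by
    rw [hU, ← hVw]
    exact (hvar T R L hT1 hLC1 hLT hR hRL).1
  have hVup : V ≤ (1 + 6 * k) / Real.log U := by
    rw [hU, ← hVw]
    exact (hvar T R L hT1 hLC1 hLT hR hRL).2
  have hk6 : 25 / 32 ≤ 1 - 7 * k := by linarith
  have hV0 : 0 < V := lt_of_lt_of_le (by positivity) hVlow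
  have hV1 : V ≤ 1 := by
    refine hVup.trans ?_
    rw [div_le_one hlog0]
    linarith
  have hlogT : 0 < Real.log T := by linarith
  have hXk : 0 ≤ Xr k T R L := by
    unfold Xr
    rw [← hU]
    positivity
  have hQ : ∀ p ∈ Q, p.Prime ∧ (p : ℝ) ≤ Real.exp (Xr k T R L) := by
    intro p hp
    rw [hQd] at hp
    unfold QX at hp
    rw [Finset.mem_filter, Finset.mem_range] at hp
    refine ⟨hp.2, ?_⟩
    have h3 : p ≤ ⌊Real.exp (Xr k T R L)⌋₊ := by omega
    exact (Nat.cast_le.2 h3).trans (Nat.floor_le (Real.exp_pos _).le)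
  have hKV : (K : ℝ) / V ≤ 2 * K * Real.log U := by
    rw [div_le_iff₀ hV0]
    have h3 : 25 / 32 / Real.log U ≤ V := le_trans (by gcongr) hVlow
    have h4 : (0 : ℝ) ≤ K := Nat.cast_nonneg K
    have h5 : 2 * K * Real.log U * (25 / 32 / Real.log U) ≤ 2 * K * Real.log U * V :=
      mul_le_mul_of_nonneg_left h3 (by positivity)
    have h6 : 2 * K * Real.log U * (25 / 32 / Real.log U) = 25 / 16 * (K : ℝ) := by
      field_simp
      ring
    linarith
  have hm : ∀ m : ℕ, (m : ℝ) ≤ K / V →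
      IntegrableOn (fun t => (DP Q r t).re ^ (2 * m)) (Icc T (2 * T)) ∧
      T / 2 * (((2 * m).factorial : ℝ) / (2 ^ m * m.factorial)) * (V / 2) ^ m ≤
        ∫ t in Icc T (2 * T), (DP Q r t).re ^ (2 * m) ∧
      ∫ t in Icc T (2 * T), (DP Q r t).re ^ (2 * m) ≤
        2 * T * (((2 * m).factorial : ℝ) / (2 ^ m * m.factorial)) * (V / 2) ^ m := by
    intro m hn
    have hn2 : (m : ℝ) ≤ 2 * K * Real.log U := hn.trans hKV
    have hn0 : (0 : ℝ) ≤ m := Nat.cast_nonneg m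
    refine hmom T (Real.exp (Xr k T R L)) hT0 (Real.one_le_exp hXk) _ _ m (C3 * L ^ (-c3)) hQ ?_
      (fun p hp => hrk T R L hT3 hLC3 hLT hR hRL p (hQ p hp).1) ?_ hV0
    · rw [← Real.exp_nat_mul, Real.rpow_def_of_pos hTp]
      refine Real.exp_le_exp.2 ?_
      unfold Xr
      rw [← hU]
      have h3 : 0 < R * U ^ k := by positivity
      have h4 : (m : ℝ) * 16 ≤ R * U ^ k := by linarith
      rw [← mul_div_assoc, div_le_iff₀ h3]
      nlinarith
    · have h3 : (m : ℝ) ^ 2 ≤ (2 * K * Real.log U) ^ 2 := pow_le_pow_left₀ hn0 hn2 2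
      have h4 : 0 < L ^ (-c3) := by positivity
      have h5 : L ^ (-c3) * L ^ c3 = 1 := by
        rw [← Real.rpow_add hL0]
        simp
      have h6 : 4 * (m : ℝ) ^ 2 * (C3 * L ^ (-c3)) ≤ 4 * (2 * K * Real.log U) ^ 2 * (C3 * L ^ (-c3)) := by
        have : 0 ≤ C3 * L ^ (-c3) := by positivity
        nlinarith
      have h7 : 4 * (2 * (K : ℝ) * Real.log U) ^ 2 * (C3 * L ^ (-c3)) * Real.log U ≤ 1 / 4 := by
        have h8 : 4 * (2 * (K : ℝ) * Real.log U) ^ 2 * (C3 * L ^ (-c3)) * Real.log U =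
            (64 * (K : ℝ) ^ 2 * C3 * Real.log U ^ 3) * L ^ (-c3) / 4 := by ring
        rw [h8]
        have h10 : Real.log U ^ 3 ≤ Real.log L ^ 3 := pow_le_pow_left₀ hlog0.le hlogU2 3
        have h11 : 64 * (K : ℝ) ^ 2 * C3 * Real.log U ^ 3 ≤ 64 * (K : ℝ) ^ 2 * C3 * Real.log L ^ 3 :=
          mul_le_mul_of_nonneg_left h10 (by positivity)
        have h9 : (64 * (K : ℝ) ^ 2 * C3 * Real.log U ^ 3) * L ^ (-c3) ≤ L ^ c3 * L ^ (-c3) :=
          mul_le_mul_of_nonneg_right (h11.trans h2) h4.le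
        rw [mul_comm (L ^ c3), h5] at h9
        linarith
      refine h6.trans (le_trans ?_ hVlow)
      rw [le_div_iff₀ hlog0]
      linarith
  have hcont : Continuous fun t => (DP Q r t).re :=
    Complex.continuous_re.comp (DP_cont' _ (fun p hp => (hQ p hp).1) _)
  have hfin := hloc T (2 * T) T V (e * (1 + k)) (fun t => (DP Q r t).re) hcont hTp hV0 hV1
    (by positivity) (by nlinarith) (fun m hn => by
      have h3 := (hm m hn).2.1
      rw [mul_assoc, gm_conv] at h3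
      linarith) (fun m hn => by
      have h3 := (hm m hn).2.2
      rw [mul_assoc, gm_conv] at h3
      linarith)
  refine le_trans (ENNReal.ofReal_le_ofReal ?_) (hfin.trans (measure_mono ?_))
  · refine mul_le_mul_of_nonneg_right ?_ hTp.le
    have h3 : 1 / CC ≤ c := by
      rw [one_div]
      rw [one_div] at hLc
      exact inv_le_of_inv_le₀ hc hLc
    have h4 : (L / R) ^ (-((1 + 30 * k) * e ^ 2)) ≤ Real.exp (-((1 + k) * (e * (1 + k)) ^ 2 / V)) := by
      rw [← hU, Real.rpow_def_of_pos hU0]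
      refine Real.exp_le_exp.2 ?_
      have h5 : (1 + k) * (e * (1 + k)) ^ 2 / V ≤ Real.log U * ((1 + 30 * k) * e ^ 2) := by
        rw [div_le_iff₀ hV0]
        have h6 : Real.log U * ((1 + 30 * k) * e ^ 2) * ((1 - 7 * k) / Real.log U) ≤
            Real.log U * ((1 + 30 * k) * e ^ 2) * V := mul_le_mul_of_nonneg_left hVlow (by positivity)
        have h7 : Real.log U * ((1 + 30 * k) * e ^ 2) * ((1 - 7 * k) / Real.log U) = (1 + 30 * k) * (1 - 7 * k) * e ^ 2 := by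
          field_simp
        rw [h7] at h6
        refine le_trans ?_ h6
        have h8 : (1 + k) * (e * (1 + k)) ^ 2 = (1 + k) ^ 3 * e ^ 2 := by ring
        rw [h8]
        refine mul_le_mul_of_nonneg_right ?_ (sq_nonneg e)
        nlinarith [mul_pos hk hk, mul_pos (mul_pos hk hk) hk]
      linarith
    exact mul_le_mul h3 h4 (by positivity) hc.le
  · rintro t ⟨ht, hte⟩
    refine ⟨ht.1, ht.2, lt_of_lt_of_le ?_ hte⟩
    nlinarith

end Pool.Agent.Helper62.NW
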