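import Pool.Agent.Helper57.NW.Defs
import Pool.Agent.Helper24.UG.Ker
import Pool.Agent.Helper24.UG.Win

/-!
# NW: block H, the pointwise part: the prediction and the linear statistic
-/

set_option autoImplicit false
open MeasureTheory Set Filter Topology
open Pool.Agent.Helper57.Zeta Pool.Agent.Helper57.LH Pool.Agent.Helper57.ED
open Pool.Agent.Helper54.LG (za zb qk SS MM qk_neg_right qk_zero_nonneg)
open Pool.Agent.Helper93.UG (zc sp)
open Pool.Agent.Helper69.UG (XX NX)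
open Pool.Agent.Helper24.UG (summable_q0 zc_fin)
open Pool.Agent.Helper57.NS (cnt)
open Pool.Agent.Helper57.NW

namespace Pool.Agent.Helper62.NW

lemma sp_pos {T : ℝ} (hT : 1 < T) : 0 < sp T := by
  unfold sp
  have := Real.log_pos hT
  positivity

lemma XX_pos {T M : ℝ} (hT : 1 < T) (hM : 0 < M) : 0 < XX T M := by
  unfold XX
  have := Real.log_pos hT
  positivity

lemma qk_sp {k T t : ℝ} (hk : 0 < k) (hT : 1 < T) (j : ℕ) (ρ : ZS) :
    qk 0 (2 * Real.pi * (((ρ : ℂ).im - t) / sp T) / (1 + k) ^ j) = qk 0 (zb (XX T ((1 + k) ^ j)) t ρ) := by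
  rw [← qk_neg_right]
  congr 1
  unfold sp zb XX
  have := (Real.log_pos hT).ne'
  have := Real.pi_pos.ne'
  have h1 : (1 + k) ≠ 0 := by positivity
  field_simp
  ring

/-- the linear statistic is absolutely convergent -/
lemma summable_abs {k T t : ℝ} (hk : 0 < k) (hT : 1 < T) (J : Finset ℕ) (b : ℕ → ℝ) :
    Summable fun ρ : ZS => mx ρ * |Pb k J b (((ρ : ℂ).im - t) / sp T)| := by
  have h1 : Summable fun ρ : ZS => ∑ j ∈ J, |b j| * (mx ρ * qk 0 (zb (XX T ((1 + k) ^ j)) t ρ)) :=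
    summable_sum fun j _ => (summable_q0 (XX_pos hT (by positivity)) t).mul_left _
  refine Summable.of_nonneg_of_le (fun ρ => mul_nonneg (mx_nonneg _) (abs_nonneg _)) (fun ρ => ?_) h1
  have h2 : |Pb k J b (((ρ : ℂ).im - t) / sp T)| ≤ ∑ j ∈ J, |b j| * qk 0 (zb (XX T ((1 + k) ^ j)) t ρ) := by
    unfold Pb
    refine (Finset.abs_sum_le_sum_abs _ _).trans (Finset.sum_le_sum fun j _ => ?_)
    rw [abs_mul, qk_sp hk hT, abs_of_nonneg (qk_zero_nonneg _)]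
  refine (mul_le_mul_of_nonneg_left h2 (mx_nonneg _)).trans (le_of_eq ?_)
  rw [Finset.mul_sum]
  exact Finset.sum_congr rfl fun j _ => by ring

open Classical in
/-- The sum over the zeros outside of `t + W s`, at distance at most `L s`. -/
noncomputable def osum (k T R L : ℝ) (n : ℕ) (t : ℝ) (W : Set ℝ) : ℝ :=
  ∑' ρ : ZS, mx ρ * (if |(ρ : ℂ).im - t| ≤ L * sp T ∧ ((ρ : ℂ).im - t) / sp T ∉ W then
    ph k R L n (((ρ : ℂ).im - t) / sp T) else 0)

lemma prd_eq (k T R L : ℝ) (n : ℕ) (t : ℝ) (W : Set ℝ) : prd k T R L n t W = Aw k R L n - osum k T R L n t W := rfl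

open Classical in
lemma split_sum {k T R L t : ℝ} {n : ℕ} (hk : 0 < k) (hT : 1 < T) {W : Set ℝ} (hW : W ⊆ Icc (-L) L) :
    ∃ F : Finset ZS, (∀ ρ : ZS, ρ ∈ F ↔ ((ρ : ℂ).im - t) / sp T ∈ W) ∧ cnt T t W = ∑ ρ ∈ F, mx ρ ∧
      Tw k T R L n t = Ow k T R L n t + osum k T R L n t W +
        ∑ ρ ∈ F, mx ρ * ph k R L n (((ρ : ℂ).im - t) / sp T) := by
  have hs := sp_pos hT
  have hsub : {u : ℝ | (u - t) / sp T ∈ W} ⊆ Icc (t - L * sp T) (t + L * sp T) := by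
    intro u hu
    have h1 := hW hu
    rw [mem_Icc, le_div_iff₀ hs, div_le_iff₀ hs] at h1
    rw [mem_Icc]
    constructor <;> linarith [h1.1, h1.2]
  obtain ⟨F, hF, h1⟩ := zc_fin hsub
  refine ⟨F, fun ρ => hF ρ, h1, ?_⟩
  set g : ZS → ℝ := fun ρ => mx ρ * ph k R L n (((ρ : ℂ).im - t) / sp T) with hg
  set ga : ZS → ℝ := fun ρ => mx ρ * |ph k R L n (((ρ : ℂ).im - t) / sp T)| with hga
  have hgs : Summable ga := summable_abs hk hT _ _
  set g1 : ZS → ℝ := fun ρ => mx ρ * (if |(ρ : ℂ).im - t| ≤ L * sp T then 0 else ph k R L n (((ρ : ℂ).im - t) / sp T))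
    with hg1
  set g2 : ZS → ℝ := fun ρ => mx ρ * (if |(ρ : ℂ).im - t| ≤ L * sp T ∧ ((ρ : ℂ).im - t) / sp T ∉ W then
    ph k R L n (((ρ : ℂ).im - t) / sp T) else 0) with hg2
  set g3 : ZS → ℝ := fun ρ => if ρ ∈ F then g ρ else 0 with hg3
  have e : ∀ ρ, g ρ = g1 ρ + g2 ρ + g3 ρ := by
    intro ρ
    simp only [hg1, hg2, hg3, hg]
    by_cases ha : |(ρ : ℂ).im - t| ≤ L * sp T
    · by_cases hb : ((ρ : ℂ).im - t) / sp T ∈ W
      · have hc : ρ ∈ F := (hF ρ).2 hb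
        simp [ha, hb, hc]
      · have hc : ρ ∉ F := fun h => hb ((hF ρ).1 h)
        simp [ha, hb, hc]
    · have hb : ((ρ : ℂ).im - t) / sp T ∉ W := by
        intro h
        have h2 := hW h
        rw [mem_Icc, le_div_iff₀ hs, div_le_iff₀ hs] at h2
        apply ha
        rw [abs_le]
        constructor <;> linarith [h2.1, h2.2]
      have hc : ρ ∉ F := fun h => hb ((hF ρ).1 h)
      simp [ha, hc]
  have s1 : Summable g1 := by
    refine Summable.of_norm_bounded hgs fun ρ => ?_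
    rw [Real.norm_eq_abs]
    simp only [hg1, hga]
    rw [abs_mul, abs_of_nonneg (mx_nonneg _)]
    refine mul_le_mul_of_nonneg_left ?_ (mx_nonneg _)
    split_ifs
    · rw [abs_zero]
      exact abs_nonneg _
    · exact le_refl _
  have s2 : Summable g2 := by
    refine Summable.of_norm_bounded hgs fun ρ => ?_
    rw [Real.norm_eq_abs]
    simp only [hg2, hga]
    rw [abs_mul, abs_of_nonneg (mx_nonneg _)]
    refine mul_le_mul_of_nonneg_left ?_ (mx_nonneg _)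
    split_ifs
    · exact le_refl _
    · rw [abs_zero]
      exact abs_nonneg _
  have s3 : ∑' ρ, g3 ρ = ∑ ρ ∈ F, g ρ := by
    rw [tsum_eq_sum (s := F)]
    · exact Finset.sum_congr rfl fun ρ hρ => by simp [hg3, hρ]
    · intro ρ hρ
      simp [hg3, hρ]
  have s3' : Summable g3 := by
    refine summable_of_ne_finset_zero (s := F) fun ρ hρ => ?_
    simp [hg3, hρ]
  have h5 : Tw k T R L n t = ∑' ρ, (g1 ρ + g2 ρ + g3 ρ) := tsum_congr e
  rw [h5, (s1.add s2).tsum_add s3', s1.tsum_add s2, s3]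
  rfl

/-- the difference of the number of the zeros and the prediction -/
lemma diff_eq {k T R L t : ℝ} {n : ℕ} {W : Set ℝ} {F : Finset ZS} (hcnt : cnt T t W = ∑ ρ ∈ F, mx ρ)
    (hTot : Tw k T R L n t = Ow k T R L n t + osum k T R L n t W +
      ∑ ρ ∈ F, mx ρ * ph k R L n (((ρ : ℂ).im - t) / sp T)) :
    (cnt T t W - prd k T R L n t W) - (Tw k T R L n t - Mw k R L n) = - (Ow k T R L n t - (Mw k R L n - Aw k R L n)) +
      ∑ ρ ∈ F, mx ρ * (1 - ph k R L n (((ρ : ℂ).im - t) / sp T)) := by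
  have : ∑ ρ ∈ F, mx ρ * (1 - ph k R L n (((ρ : ℂ).im - t) / sp T)) =
      ∑ ρ ∈ F, mx ρ - ∑ ρ ∈ F, mx ρ * ph k R L n (((ρ : ℂ).im - t) / sp T) := by
    rw [← Finset.sum_sub_distrib]
    exact Finset.sum_congr rfl fun ρ _ => by ring
  rw [prd_eq, this, hTot, hcnt]
  ring

/-- H: pointwise, from the flatness -/
theorem point_of {k d : ℝ} (hk : 0 < k) (hd : 0 < d) {n : ℕ}
    (ph_flat : ∃ C : ℝ, 1 ≤ C ∧ ∀ R L x : ℝ, C ≤ L → 1 ≤ R → R ≤ L ^ (1 - d) → |x| ≤ R →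
      |1 - ph k R L n x| ≤ C * L ^ (-2 : ℝ)) :
    ∃ C : ℝ, 1 ≤ C ∧ ∀ (T R L t v : ℝ) (W : Set ℝ), 3 ≤ T → C ≤ L → 1 ≤ R → R ≤ L ^ (1 - d) →
    |Ow k T R L n t - (Mw k R L n - Aw k R L n)| ≤ v → (zc (Wr T R 1 t) : ℝ) ≤ L → W ⊆ Icc (-R) R →
    |(cnt T t W - prd k T R L n t W) - (Tw k T R L n t - Mw k R L n)| ≤ v + C * L ^ (-1 : ℝ) := by
  obtain ⟨C, hC, hphi⟩ := ph_flat
  refine ⟨C, hC, ?_⟩
  intro T R L t v W hT hLC hR hRL h2 h3 hW
  have hT1 : 1 < T := by linarith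
  have hs := sp_pos hT1
  have hL1 : 1 ≤ L := by linarith
  have hL0 : 0 < L := by linarith
  have hl : R ≤ L := by
    calc R ≤ L ^ (1 - d) := hRL
      _ ≤ L ^ (1 : ℝ) := Real.rpow_le_rpow_of_exponent_le hL1 (by linarith)
      _ = L := Real.rpow_one L
  obtain ⟨F, hF, hcnt, hTot⟩ := split_sum (R := R) (n := n) (t := t) hk hT1 (hW.trans (Icc_subset_Icc (neg_le_neg hl) hl))
  have h4 := diff_eq hcnt hTot
  have h5 : |∑ ρ ∈ F, mx ρ * (1 - ph k R L n (((ρ : ℂ).im - t) / sp T))| ≤ C * L ^ (-2 : ℝ) * (zc (Wr T R 1 t) : ℝ) := by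
    have hx : ∀ ρ ∈ F, |((ρ : ℂ).im - t) / sp T| ≤ R := by
      intro ρ hρ
      have := hW ((hF ρ).1 hρ)
      rw [abs_le]
      exact this
    obtain ⟨F', hF', h6⟩ := zc_fin (I := Wr T R 1 t) (a := t - 1 * R * sp T) (b := t + 1 * R * sp T) subset_rfl
    have hFF : F ⊆ F' := by
      intro ρ hρ
      rw [hF' ρ]
      have h7 := abs_le.1 (hx ρ hρ)
      rw [le_div_iff₀ hs, div_le_iff₀ hs] at h7
      unfold Wr
      rw [mem_Icc]
      constructor <;> linarith [h7.1, h7.2]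
    calc |∑ ρ ∈ F, mx ρ * (1 - ph k R L n (((ρ : ℂ).im - t) / sp T))|
        ≤ ∑ ρ ∈ F, |mx ρ * (1 - ph k R L n (((ρ : ℂ).im - t) / sp T))| := Finset.abs_sum_le_sum_abs _ _
      _ ≤ ∑ ρ ∈ F, mx ρ * (C * L ^ (-2 : ℝ)) := by
          refine Finset.sum_le_sum fun ρ hρ => ?_
          rw [abs_mul, abs_of_nonneg (mx_nonneg _)]
          exact mul_le_mul_of_nonneg_left (hphi R L _ hLC hR hRL (hx ρ hρ)) (mx_nonneg _)
      _ = C * L ^ (-2 : ℝ) * ∑ ρ ∈ F, mx ρ := by rw [← Finset.sum_mul]; ring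
      _ ≤ C * L ^ (-2 : ℝ) * ∑ ρ ∈ F', mx ρ := by
          refine mul_le_mul_of_nonneg_left ?_ (by positivity)
          exact Finset.sum_le_sum_of_subset_of_nonneg hFF fun ρ _ _ => mx_nonneg _
      _ = _ := by rw [h6]
  have h6 : C * L ^ (-2 : ℝ) * (zc (Wr T R 1 t) : ℝ) ≤ C * L ^ (-1 : ℝ) := by
    calc C * L ^ (-2 : ℝ) * (zc (Wr T R 1 t) : ℝ) ≤ C * L ^ (-2 : ℝ) * L := mul_le_mul_of_nonneg_left h3 (by positivity)
      _ = C * (L ^ (-2 : ℝ) * L ^ (1 : ℝ)) := by rw [Real.rpow_one]; ring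
      _ = C * L ^ (-1 : ℝ) := by
          rw [← Real.rpow_add hL0]
          norm_num
  rw [h4]
  have h7 := abs_add_le (-(Ow k T R L n t - (Mw k R L n - Aw k R L n)))
    (∑ ρ ∈ F, mx ρ * (1 - ph k R L n (((ρ : ℂ).im - t) / sp T)))
  rw [abs_neg] at h7
  linarith

end Pool.Agent.Helper62.NW
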