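import Pool.Agent.Helper62.NS.PrimeLow
import Pool.Agent.Helper62.NW.Low
import Pool.Agent.Helper62.NW.Point
import Pool.Agent.Helper49.NW.VarW
import Pool.Agent.Helper7.NW.V0
import Pool.Agent.Helper7.NW.V3
import Pool.Agent.Helper82.NW.Var
import Pool.Agent.Helper82.NW.VarLow
import Pool.Agent.Helper4.NW.Flat

/-!
# NW: `dp_low` and `point` without hypotheses
-/

set_option autoImplicit false
open MeasureTheory Set Filter Topology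
open Pool.Agent.Helper57.Zeta Pool.Agent.Helper57.LH Pool.Agent.Helper57.ED
open Pool.Agent.Helper54.LG (za zb qk SS MM)
open Pool.Agent.Helper93.UG (zc sp)
open Pool.Agent.Helper69.UG (XX NX)
open Pool.Agent.Helper57.TX (QX DP rs)
open Pool.Agent.Helper57.NS (Thick cnt)
open Pool.Agent.Helper57.NW

namespace Pool.Agent.Helper62.NW

/-- V2 -/
theorem var_w {k d : ℝ} (hk : 0 < k) (hk8 : k ≤ 1 / 8) (hd : 0 < d) (hd1 : d ≤ 1) (n : ℕ) : ∃ C T₀ : ℝ, 1 ≤ C ∧ ∀ T R L : ℝ,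
    T₀ ≤ T → C ≤ L → L ≤ Real.log T → 1 ≤ R → R ≤ L ^ (1 - d) →
    (1 - 7 * k) / Real.log (L / R) ≤ Vw k T R L n ∧ Vw k T R L n ≤ (1 + 6 * k) / Real.log (L / R) :=
  Pool.Agent.Helper49.NW.var_w_of hk hk8 hd hd1 n Pool.Agent.Helper7.NW.norm_one
    (Pool.Agent.Helper82.NW.var_up0 hk hk8 hd hd1) (Pool.Agent.Helper82.NW.var_low0 hk hk8 hd hd1)
    (Pool.Agent.Helper7.NW.bw_facts hk hk8 hd hd1 n)

/-- P2: lower bound -/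
theorem dp_low {k d : ℝ} (hk : 0 < k) (hk8 : k ≤ 1 / 32) (hd : 0 < d) (hd1 : d ≤ 1) (n : ℕ) : ∃ C T₀ : ℝ, 1 ≤ C ∧
    ∀ T R L e : ℝ, T₀ ≤ T → C ≤ L → L ≤ Real.log T → 1 ≤ R → R ≤ L ^ (1 - d) → 0 < e → e ≤ 2 →
    ENNReal.ofReal (1 / C * (L / R) ^ (-((1 + 30 * k) * e ^ 2)) * T) ≤
      volume {t : ℝ | T ≤ t ∧ t ≤ 2 * T ∧ e < |Dw k T R L n t|} :=
  dp_low_of Pool.Agent.Helper49.NRS.re_mom hk hk8 hd n (var_w hk (by linarith) hd hd1 n)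
    (Pool.Agent.Helper7.NW.rb_le hk (by linarith) hd hd1 n)

/-- H: pointwise, every `W` -/
theorem point {k d : ℝ} (hk : 0 < k) (hk8 : k ≤ 1 / 8) (hd : 0 < d) (hd1 : d ≤ 1) {n : ℕ} (hn : 1 ≤ k * d * n) :
    ∃ C : ℝ, 1 ≤ C ∧ ∀ (T R L t v : ℝ) (W : Set ℝ), 3 ≤ T → C ≤ L → 1 ≤ R → R ≤ L ^ (1 - d) →
    |Ow k T R L n t - (Mw k R L n - Aw k R L n)| ≤ v → (zc (Wr T R 1 t) : ℝ) ≤ L → W ⊆ Icc (-R) R →
    |(cnt T t W - prd k T R L n t W) - (Tw k T R L n t - Mw k R L n)| ≤ v + C * L ^ (-1 : ℝ) :=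
  point_of hk hd (Pool.Agent.Helper4.NW.ph_flat hk hk8 hd hd1 hn)

end Pool.Agent.Helper62.NW
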